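import Mathlib
import Pool.Agent.H70.SymDes.Mid

/-!
A two-variable sieve over pairs `(z,t)`: `z` has no small prime factor, and no small prime `p`
with `e z` a non-residue exactly divides `c^2 z t + a^2`.
-/

namespace Pool.Agent.H24.AN

open Finset Classical Pool.Agent.H12 Pool.Agent.H70.SymDes

/-- the bad event at `p` -/
def BE (a c : ℕ) (e : ℤ) (p z t : ℕ) : Prop :=
  p ∣ z ∨ (¬ IsSquare ((e : ZMod p) * (z : ZMod p)) ∧
    (p ∣ c^2*z*t + a^2 ∧ ¬ p^2 ∣ c^2*z*t + a^2))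

/-- number of bad `t` mod `p^2` -/
noncomputable def bE (e : ℤ) (p z : ℕ) : ℝ :=
  if p ∣ z then (p:ℝ)^2 else if ¬ IsSquare ((e : ZMod p) * (z : ZMod p)) then (p:ℝ) - 1 else 0

lemma bE_nonneg (e : ℤ) (p z : ℕ) (hp : p.Prime) : 0 ≤ bE e p z := by
  unfold bE
  have : (1:ℝ) ≤ p := by exact_mod_cast hp.one_lt.le
  split_ifs <;> positivity

lemma bE_mod (e : ℤ) (p z : ℕ) : bE e p (z % p^2) = bE e p z := by
  obtain ⟨h1, h2, h3⟩ := mod_facts p z
  unfold bE
  simp only [h1, h3]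

lemma BE_mod (a c : ℕ) (e : ℤ) (p z t : ℕ) : BE a c e p z (t % p^2) ↔ BE a c e p z t := by
  have h4 : c^2*z * (t % p^2) + a^2 ≡ c^2*z * t + a^2 [MOD p^2] :=
    ((Nat.mod_modEq t (p^2)).mul_left _).add_right _
  have h5 : p ∣ c^2*z * (t % p^2) + a^2 ↔ p ∣ c^2*z * t + a^2 := by
    have h6 := h4.of_dvd (Dvd.intro_left (p^1) rfl : p ∣ p^2)
    exact h6.dvd_iff dvd_rfl
  have h6 : p^2 ∣ c^2*z * (t % p^2) + a^2 ↔ p^2 ∣ c^2*z * t + a^2 := h4.dvd_iff dvd_rfl
  unfold BE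
  rw [h5, h6]

lemma sum_BE (a c : ℕ) (e : ℤ) (p z : ℕ) (hp : p.Prime) (hc : ¬ p ∣ c) :
    ∑ t ∈ range (p^2), (if BE a c e p z t then (1:ℝ) else 0) = bE e p z := by
  rw [sum_boole]
  unfold bE
  by_cases hpz : p ∣ z
  · rw [if_pos hpz]
    have : (range (p^2)).filter (fun t => BE a c e p z t) = range (p^2) := by
      rw [filter_eq_self]
      intro t _; left; exact hpz
    rw [this, card_range]; push_cast; rfl
  · rw [if_neg hpz]
    by_cases hsq : ¬ IsSquare ((e : ZMod p) * (z : ZMod p))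
    · rw [if_pos hsq]
      have hcop : Nat.Coprime (c^2*z) (p^2) := by
        apply Nat.Coprime.pow_right
        apply Nat.Coprime.mul_left
        · exact (Nat.Coprime.pow_right 2 ((Nat.Prime.coprime_iff_not_dvd hp).mpr hc)).symm
        · exact ((Nat.Prime.coprime_iff_not_dvd hp).mpr hpz).symm
      have h1 : ((range (p^2)).filter (fun t => BE a c e p z t)).card =
          ((range (p^2)).filter (fun t => (fun w => p ∣ w ∧ ¬ p^2 ∣ w)
            ((c^2*z * t + a^2) % p^2))).card := by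
        congr 1
        refine filter_congr fun t _ => ?_
        obtain ⟨m1, m2, -⟩ := mod_facts p (c^2*z * t + a^2)
        simp only [m1, m2]
        constructor
        · rintro (h | h)
          · exact absurd h hpz
          · exact h.2
        · intro h; right; exact ⟨hsq, h⟩
      have h2 := card_affine (p^2) (c^2*z) (a^2) (pow_pos hp.pos 2) hcop
        (fun w => p ∣ w ∧ ¬ p^2 ∣ w)
      rw [h1]
      rw [card_exact p hp] at h2
      rw [h2, Nat.cast_sub hp.one_lt.le, Nat.cast_one]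
    · rw [if_neg hsq]
      have : (range (p^2)).filter (fun t => BE a c e p z t) = ∅ := by
        rw [filter_eq_empty_iff]
        rintro t _ (h | h)
        · exact hpz h
        · exact hsq h.1
      rw [this]; simp

/-- the total number of bad pairs -/
lemma sum_bE (e : ℤ) (he : e = 1 ∨ e = -1) (p : ℕ) (hp : p.Prime) :
    ∑ z ∈ range (p^2), bE e p z = (p:ℝ)^3 + (p - 1) * (p * nsq p) := by
  have : Fact p.Prime := ⟨hp⟩
  have he' : (e : ZMod p) ≠ 0 := by
    rcases he with h | h <;> rw [h] <;> simp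
  have h0 : ∀ z : ℕ, bE e p z = (p:ℝ)^2 * (if p ∣ z then (1:ℝ) else 0) +
      ((p:ℝ) - 1) * (if ¬ IsSquare ((e : ZMod p) * (z : ZMod p)) then (1:ℝ) else 0) := by
    intro z
    unfold bE
    by_cases hz : p ∣ z
    · have hz0 : (z : ZMod p) = 0 := by rw [ZMod.natCast_eq_zero_iff]; exact hz
      have hsq : IsSquare ((e : ZMod p) * (z : ZMod p)) := by
        rw [hz0, mul_zero]; exact IsSquare.zero
      rw [if_pos hz, if_pos hz, if_neg (by push Not; exact hsq)]; ring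
    · rw [if_neg hz, if_neg hz]
      by_cases hsq : IsSquare ((e : ZMod p) * (z : ZMod p))
      · rw [if_neg (by push Not; exact hsq), if_neg (by push Not; exact hsq)]; ring
      · rw [if_pos hsq, if_pos hsq]; ring
  simp only [h0]
  rw [sum_add_distrib, ← mul_sum, ← mul_sum]
  have h1 : ∑ z ∈ range (p^2), (if p ∣ z then (1:ℝ) else 0) = p := by
    rw [sum_boole, card_dvd p hp]
  have h2 : ∑ t ∈ range (p^2), (if ¬ IsSquare ((e : ZMod p) * ((t:ℕ) : ZMod p))
      then (1:ℝ) else 0) = p * nsq p := by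
    have := sum_range_periodic p (fun t : ℕ => if ¬ IsSquare ((e : ZMod p) *
      ((t:ℕ) : ZMod p)) then (1:ℝ) else 0) (by
        intro t
        have : ((t % p : ℕ) : ZMod p) = (t : ZMod p) :=
          (ZMod.natCast_eq_natCast_iff _ _ _).mpr (Nat.mod_modEq t p)
        rw [this]) p 0
    rw [add_zero, ← sq] at this
    rw [this]
    simp only [range_zero, sum_empty, add_zero]
    congr 1
    rw [sum_boole]
    have h3 := range_count p (fun u => ¬ IsSquare ((e : ZMod p) * u))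
    have h4 := card_comp_bij (fun u : ZMod p => (e : ZMod p) * u) (by
      intro u u' h
      exact mul_left_cancel₀ he' h) (fun u => ¬ IsSquare u)
    rw [nsq_eq, ← h4, ← h3]
  rw [h1, h2]
  ring

/-- density of the bad event -/
noncomputable def dE (e : ℤ) (p : ℕ) : ℝ := (∑ z ∈ range (p^2), bE e p z) / (p:ℝ)^4

lemma dE_bounds (e : ℤ) (he : e = 1 ∨ e = -1) (p : ℕ) (hp : p.Prime) (h2 : p ≠ 2) :
    ∑ z ∈ range (p^2), bE e p z ≤ (p:ℝ)^4 ∧ 0 ≤ dE e p ∧ dE e p ≤ 2 / p ∧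
    3/2 * (1/(p:ℝ)) - 1/(p:ℝ)^2 ≤ dE e p := by
  have : Fact p.Prime := ⟨hp⟩
  have hp3 : 3 ≤ p := by
    have := hp.two_le
    omega
  have hp3' : (3:ℝ) ≤ p := by exact_mod_cast hp3
  have hp0 : (0:ℝ) < p := by linarith
  have hn1 : (p:ℝ) ≤ 2 * nsq p + 1 := by exact_mod_cast nsq_lower p h2
  have hn2 : (nsq p : ℝ) ≤ p := by exact_mod_cast nsq_upper p
  have hn0 : (0:ℝ) ≤ nsq p := by positivity
  have hsum := sum_bE e he p hp
  have hup : ∑ z ∈ range (p^2), bE e p z ≤ 2 * (p:ℝ)^3 := by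
    rw [hsum]
    have h1 : ((p:ℝ) - 1) * (p * nsq p) ≤ p * (p * p) := by
      apply mul_le_mul (by linarith) _ (by positivity) (by positivity)
      exact mul_le_mul_of_nonneg_left hn2 hp0.le
    nlinarith
  have hlo : (p:ℝ)^3 + (p-1)^2 * p / 2 ≤ ∑ z ∈ range (p^2), bE e p z := by
    rw [hsum]
    have h1 : ((p:ℝ)-1)^2 * p / 2 = (p - 1) * (p * ((p - 1)/2)) := by ring
    rw [h1]
    have h3 : ((p:ℝ) - 1)/2 ≤ nsq p := by linarith
    have h4 : (p:ℝ) * ((p - 1)/2) ≤ p * nsq p := mul_le_mul_of_nonneg_left h3 hp0.le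
    have h5 := mul_le_mul_of_nonneg_left h4 (show (0:ℝ) ≤ p - 1 by linarith)
    linarith
  have hnn : 0 ≤ ∑ z ∈ range (p^2), bE e p z := sum_nonneg fun z _ => bE_nonneg e p z hp
  refine ⟨hup.trans ?_, div_nonneg hnn (by positivity), ?_, ?_⟩
  · have : (p:ℝ)^4 = p * (p:ℝ)^3 := by ring
    rw [this]
    exact mul_le_mul_of_nonneg_right (by linarith) (by positivity)
  · unfold dE
    rw [div_le_div_iff₀ (by positivity) (by positivity)]
    have : 2 * (p:ℝ)^4 = 2 * (p:ℝ)^3 * p := by ring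
    rw [this]
    exact mul_le_mul_of_nonneg_right hup (by positivity)
  · unfold dE
    rw [le_div_iff₀ (by positivity)]
    refine le_trans ?_ hlo
    have : (3/2 * (1/(p:ℝ)) - 1/(p:ℝ)^2) * (p:ℝ)^4 = 3/2 * (p:ℝ)^3 - (p:ℝ)^2 := by
      field_simp
    rw [this]; nlinarith

/-- the primes used at scale `i` -/
noncomputable def PQ (m i : ℕ) : Finset ℕ := (PP i).filter (fun p => ¬ p ∣ m)

lemma PQ_sub (m i : ℕ) : PQ m i ⊆ PP i := filter_subset _ _

lemma sum_PQ (m i : ℕ) (hm : 0 < m) : SS i - m ≤ ∑ p ∈ PQ m i, 1/(p:ℝ) := by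
  have h1 := sum_filter_add_sum_filter_not (PP i) (fun p => p ∣ m) (fun p => 1/(p:ℝ))
  have h2 : ∑ p ∈ (PP i).filter (fun p => p ∣ m), 1/(p:ℝ) ≤ m := by
    have h3 : ∑ p ∈ (PP i).filter (fun p => p ∣ m), 1/(p:ℝ) ≤
        ∑ p ∈ (PP i).filter (fun p => p ∣ m), (1:ℝ) := by
      refine sum_le_sum fun p hp => ?_
      rw [mem_filter] at hp
      have : (3:ℝ) ≤ p := by exact_mod_cast PP_ge hp.1
      rw [div_le_one (by linarith)]; linarith
    refine h3.trans ?_
    rw [sum_const, nsmul_eq_mul, mul_one]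
    have h4 : ((PP i).filter (fun p => p ∣ m)).card ≤ (Icc 1 m).card := by
      apply card_le_card
      intro p hp
      rw [mem_filter] at hp
      rw [mem_Icc]
      have := PP_ge hp.1
      exact ⟨by omega, Nat.le_of_dvd hm hp.2⟩
    rw [Nat.card_Icc, Nat.add_sub_cancel] at h4
    exact_mod_cast h4
  unfold SS PQ
  linarith

theorem box_sieve (a c : ℕ) (m : ℕ) (hm : 0 < m) (hcm : c ∣ m) (e : ℤ) (he : e = 1 ∨ e = -1)
    (i M S : ℕ) :
    (((range M ×ˢ range S).filter (fun ω : ℕ × ℕ =>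
      ∀ p ∈ PQ m i, ¬ BE a c e p ω.1 ω.2)).card : ℝ) ≤
    ((M:ℝ) * S) * (Real.exp (3/2 * m + 1) * Real.exp (-(3/2 * SS i)) + th i) +
      (((M:ℝ) + S) * YY i ^ (3 * rr i) + YY i ^ (5 * rr i)) := by
  have hPp : ∀ p ∈ PQ m i, p.Prime := fun p hp => (mem_PP.mp (PQ_sub m i hp)).2.2
  have hP2 : ∀ p ∈ PQ m i, p ≠ 2 := fun p hp => (mem_PP.mp (PQ_sub m i hp)).1
  have hPc : ∀ p ∈ PQ m i, ¬ p ∣ c := by
    intro p hp h
    unfold PQ at hp
    rw [mem_filter] at hp
    exact hp.2 (h.trans hcm)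
  have hb := fun p (hp : p ∈ PQ m i) => dE_bounds e he p (hPp p hp) (hP2 p hp)
  have hmain := sieve_bound_gen M S (PQ m i) hPp
    (fun p z t => BE a c e p z t) (fun p z => bE e p z)
    (fun p hp z => bE_nonneg e p z (hPp p hp))
    (fun p _ z => bE_mod e p z)
    (fun p _ z t => BE_mod a c e p z t)
    (fun p hp z _ => sum_BE a c e p z (hPp p hp) (hPc p hp))
    (fun p hp => (hb p hp).1) (rr i) (rr_even i) (YY i) (fun p hp => PP_le_YY (PQ_sub m i hp))
    (by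
      have h1 := card_PP i
      have h2 : ((PQ m i).card : ℝ) ≤ (PP i).card := by exact_mod_cast card_le_card (PQ_sub m i)
      linarith)
    (by have := YY_ge_two i; linarith)
  refine hmain.trans ?_
  have h2 : ∏ p ∈ PQ m i, (1 - (∑ z ∈ range (p^2), bE e p z) / (p:ℝ)^4) ≤
      Real.exp (3/2 * m + 1) * Real.exp (-(3/2 * SS i)) := by
    have h3 : ∏ p ∈ PQ m i, (1 - (∑ z ∈ range (p^2), bE e p z) / (p:ℝ)^4) ≤
        ∏ p ∈ PQ m i, Real.exp (-(3/2 * (1/(p:ℝ))) + 1/(p:ℝ)^2) := by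
      refine prod_le_prod (fun p hp => ?_) (fun p hp => ?_)
      · have hp0 : (0:ℝ) < (p:ℝ)^4 := by
          have : (0:ℝ) < p := by exact_mod_cast (hPp p hp).pos
          positivity
        have := (div_le_one hp0).mpr (hb p hp).1
        linarith
      · have h4 := (hb p hp).2.2.2
        unfold dE at h4
        have h5 := Real.add_one_le_exp (-(3/2 * (1/(p:ℝ))) + 1/(p:ℝ)^2)
        linarith
    refine h3.trans ?_
    rw [← Real.exp_sum, ← Real.exp_add, Real.exp_le_exp, sum_add_distrib, sum_neg_distrib,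
      ← mul_sum]
    have h6 := sum_PQ m i hm
    have h7 : ∑ p ∈ PQ m i, 1/(p:ℝ)^2 ≤ 1 :=
      (sum_le_sum_of_subset_of_nonneg (PQ_sub m i) (fun p _ _ => by positivity)).trans
        (sum_inv_sq_PP i)
    linarith
  have hs0 : 0 ≤ ∑ p ∈ PQ m i, (∑ z ∈ range (p^2), bE e p z) / (p:ℝ)^4 :=
    sum_nonneg fun p hp => (hb p hp).2.1
  have hs : ∑ p ∈ PQ m i, (∑ z ∈ range (p^2), bE e p z) / (p:ℝ)^4 ≤ 3 * SS i := by
    have h3 : ∑ p ∈ PQ m i, (∑ z ∈ range (p^2), bE e p z) / (p:ℝ)^4 ≤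
        ∑ p ∈ PQ m i, 3 * (1/(p:ℝ)) := by
      refine sum_le_sum fun p hp => ?_
      have h4 := (hb p hp).2.2.1
      unfold dE at h4
      have h5 : (0:ℝ) ≤ 1/p := by positivity
      calc _ ≤ 2 / (p:ℝ) := h4
        _ = 2 * (1/p) := by ring
        _ ≤ 3 * (1/p) := by linarith
    refine h3.trans ?_
    unfold SS
    rw [← mul_sum]
    apply mul_le_mul_of_nonneg_left _ (by norm_num)
    exact sum_le_sum_of_subset_of_nonneg (PQ_sub m i) (fun p _ _ => by positivity)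
  have h3 := tail_le i _ hs0 hs
  have h4 : (0:ℝ) ≤ (M:ℝ) * (S:ℝ) := by positivity
  have h5 := mul_le_mul_of_nonneg_left (add_le_add h2 h3) h4
  linarith

/-- the constant of the box bound -/
noncomputable def KB (m : ℕ) : ℝ := 4 * Real.exp (3/2 * m + 1) + 9

theorem box_count (a c : ℕ) (m : ℕ) (hm : 0 < m) (hcm : c ∣ m) (e : ℤ) (he : e = 1 ∨ e = -1)
    (i j X : ℕ) (h1 : bt i ≤ j) (h2 : 2^(j + bt i) ≤ X) :
    (((range (2^(j+1)) ×ˢ range (X/2^j+1)).filter (fun ω : ℕ × ℕ =>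
      ∀ p ∈ PQ m i, ¬ BE a c e p ω.1 ω.2)).card : ℝ) ≤
    KB m * X * Real.exp (-(3/2 * SS i)) := by
  refine (box_sieve a c m hm hcm e he i (2^(j+1)) (X/2^j+1)).trans ?_
  set M : ℝ := (2:ℝ)^j with hM
  set B : ℝ := ((2^(bt i) : ℕ) : ℝ) with hB
  have hBY : B = YY i ^ (7 * rr i) := two_pow_bt i
  have hMB : B ≤ M := by
    rw [hB, hM]
    exact_mod_cast Nat.pow_le_pow_right (by norm_num) h1
  have hYY := YY_ge_two i
  have hY0 : 0 < YY i := by linarith
  have hY1 : 1 ≤ YY i := by linarith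
  have hB0 : 0 < B := by rw [hBY]; positivity
  have hB1 : 1 ≤ B := by rw [hBY]; exact one_le_pow₀ hY1
  have hM1 : (1:ℝ) ≤ M := hB1.trans hMB
  have hM0 : (0:ℝ) < M := by linarith
  have hX : M * B ≤ X := by
    have : ((2^(j+bt i) : ℕ) : ℝ) ≤ X := by exact_mod_cast h2
    refine le_trans (le_of_eq ?_) this
    rw [hM, hB]; push_cast
    rw [pow_add]
  have hX0 : (0:ℝ) < X := lt_of_lt_of_le (by positivity) hX
  have hth := th_pos i
  have hS : ((X/2^j+1 : ℕ) : ℝ) ≤ X / M + 1 := by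
    push_cast
    have h1 : ((X/2^j : ℕ) : ℝ) ≤ (X:ℝ) / ((2^j : ℕ) : ℝ) := Nat.cast_div_le
    push_cast at h1
    rw [hM]
    linarith
  have hMM : ((2^(j+1) : ℕ) : ℝ) = 2 * M := by rw [hM]; push_cast; ring
  have hXM : B ≤ X / M := by rw [le_div_iff₀ hM0]; linarith
  have hXB : M ≤ X / B := by rw [le_div_iff₀ hB0]; exact hX
  rw [hMM]
  have hMS : (2 * M) * ((X/2^j+1 : ℕ) : ℝ) ≤ 4 * X := by
    have e1 : (2 * M) * ((X/2^j+1 : ℕ) : ℝ) ≤ (2 * M) * (X / M + 1) :=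
      mul_le_mul_of_nonneg_left hS (by positivity)
    have e2 : (2 * M) * (X / M + 1) = 2 * X + 2 * M := by field_simp
    have e3 : M ≤ X := by
      have : M * 1 ≤ M * B := mul_le_mul_of_nonneg_left hB1 hM0.le
      linarith
    linarith
  have hpos : 0 ≤ Real.exp (3/2 * m + 1) * Real.exp (-(3/2 * SS i)) + th i := by positivity
  have m1 := mul_le_mul_of_nonneg_right hMS hpos
  have hp35 : YY i ^ (3 * rr i) ≤ YY i ^ (5 * rr i) := pow_le_pow_right₀ hY1 (by omega)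
  have hp5 : 0 < YY i ^ (5 * rr i) := by positivity
  have m2 : ((2 * M) + ((X/2^j+1 : ℕ) : ℝ)) * YY i ^ (3 * rr i) + YY i ^ (5 * rr i) ≤
      5 * X * th i := by
    have a0 : 0 ≤ (2 * M) + ((X/2^j+1 : ℕ) : ℝ) := by positivity
    have a1 : ((2 * M) + ((X/2^j+1 : ℕ) : ℝ)) * YY i ^ (3 * rr i) + YY i ^ (5 * rr i) ≤
        ((2 * M) + ((X/2^j+1 : ℕ) : ℝ) + 1) * YY i ^ (5 * rr i) := by
      have := mul_le_mul_of_nonneg_left hp35 a0
      nlinarith
    refine a1.trans ?_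
    have a7 : (2 * M) + ((X/2^j+1 : ℕ) : ℝ) + 1 ≤ 5 * (X / B) := by
      have b1 : X / M ≤ X / B := div_le_div_of_nonneg_left hX0.le hB0 hMB
      have b2 : 1 ≤ X / B := hM1.trans hXB
      linarith
    refine (mul_le_mul_of_nonneg_right a7 hp5.le).trans ?_
    have a8 : YY i ^ (5 * rr i) / B ≤ th i := by
      rw [div_le_iff₀ hB0, hBY]
      have e2 : YY i ^ (7 * rr i) = YY i ^ (2 * rr i) * YY i ^ (5 * rr i) := by
        have e1 : 2 * rr i + 5 * rr i = 7 * rr i := by ring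
        rw [← pow_add, e1]
      rw [e2]
      have h5 := inv_YY_le i
      have := mul_le_mul_of_nonneg_right h5 hp5.le
      calc YY i ^ (5 * rr i) = 1 * YY i ^ (5 * rr i) := (one_mul _).symm
        _ ≤ th i * YY i ^ (2 * rr i) * YY i ^ (5 * rr i) := this
        _ = th i * (YY i ^ (2 * rr i) * YY i ^ (5 * rr i)) := by ring
    calc 5 * ((X:ℝ) / B) * YY i ^ (5 * rr i) = 5 * X * (YY i ^ (5 * rr i) / B) := by ring
      _ ≤ 5 * X * th i := mul_le_mul_of_nonneg_left a8 (by positivity)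
  have m3 : th i ≤ Real.exp (-(3/2 * SS i)) := by
    refine (th_le_exp i).trans ?_
    rw [Real.exp_le_exp]
    have := SS_nonneg i
    linarith
  have m4 := mul_le_mul_of_nonneg_left m3 (show 0 ≤ 9 * (X:ℝ) by positivity)
  unfold KB
  have m5 : (4 * Real.exp (3/2 * m + 1) + 9) * X * Real.exp (-(3/2 * SS i)) =
      4 * X * (Real.exp (3/2 * m + 1) * Real.exp (-(3/2 * SS i))) +
      9 * X * Real.exp (-(3/2 * SS i)) := by ring
  rw [m5]
  linarith

end Pool.Agent.H24.AN
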