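import Mathlib
import Pool.Agent.H96.Sing.Defs

/-!
Definitions for the theorems on almost all numbers of points: symmetric designs with an
automorphism of prime order with an even number of fixed points, and difference sets.
(`IsSymmetricDesign`, `IsAut`, `IsDifferenceSet` are defined in `Pool.Agent.H96.Sing.Defs`.)
-/

namespace Pool.Agent.H24.AN

open Finset Pool.Agent.H96.Sing

/-- The numbers `v ≤ X` for which some symmetric `(v,k,l)`-design with `1 < k < v - 1` has an
automorphism of order `q` with an even number of fixed points. -/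
def evenOrders (q X : ℕ) : Set ℕ :=
  {v | v ≤ X ∧ ∃ (k l : ℕ) (B : Fin v → Finset (Fin v)), 1 < k ∧ k + 1 < v ∧
    IsSymmetricDesign v k l B ∧
    ∃ s, IsAut B s ∧ orderOf s = q ∧ Even (univ.filter (fun x => s x = x)).card}

/-- The numbers `v ≤ X` for which some symmetric `(v,k,l)`-design with `1 < k < v - 1` has an
automorphism whose order is a prime dividing `v` and which has an even number of fixed points. -/
def evenDivOrders (X : ℕ) : Set ℕ :=
  {v | v ≤ X ∧ ∃ (k l : ℕ) (B : Fin v → Finset (Fin v)), 1 < k ∧ k + 1 < v ∧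
    IsSymmetricDesign v k l B ∧
    ∃ s, IsAut B s ∧ (orderOf s).Prime ∧ orderOf s ∣ v ∧
      Even (univ.filter (fun x => s x = x)).card}

/-- The numbers `v ≤ X` for which some symmetric `(v,k,l)`-design with `1 < k < v - 1` has an
automorphism of prime order without fixed points. -/
def freeOrders (X : ℕ) : Set ℕ :=
  {v | v ≤ X ∧ ∃ (k l : ℕ) (B : Fin v → Finset (Fin v)), 1 < k ∧ k + 1 < v ∧
    IsSymmetricDesign v k l B ∧ ∃ s, IsAut B s ∧ (orderOf s).Prime ∧ ∀ x, s x ≠ x}

/-- The numbers `v ≤ X` such that some group of order `v` contains a difference set (for some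
`l`) with `k` elements, `1 < k < v - 1`. -/
def differenceSetOrders (X : ℕ) : Set ℕ :=
  {v | v ≤ X ∧ ∃ (G : Type) (_ : Group G) (D : Finset G) (l : ℕ), Nat.card G = v ∧
    1 < D.card ∧ D.card + 1 < v ∧ IsDifferenceSet G D l}

/-- The numbers `v ≤ X` for which some symmetric `(v,k,l)`-design with `1 < k < v - 1` has a
point-transitive group of automorphisms which is nilpotent or whose point stabilisers have order
prime to `v`. -/
def transitiveOrders (X : ℕ) : Set ℕ :=
  {v | v ≤ X ∧ ∃ (k l : ℕ) (B : Fin v → Finset (Fin v)), 1 < k ∧ k + 1 < v ∧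
    IsSymmetricDesign v k l B ∧
    ∃ H : Subgroup (Equiv.Perm (Fin v)), (∀ s ∈ H, IsAut B s) ∧ (∀ x y, ∃ s ∈ H, s x = y) ∧
      ((∀ x : Fin v, Nat.Coprime (Nat.card (MulAction.stabilizer H x)) v) ∨
        Group.IsNilpotent H)}

end Pool.Agent.H24.AN
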