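import Mathlib
import Pool.Agent.H96.Sing.Final
import Pool.Agent.H70.SymDes.Main
import Pool.Agent.H24.DS.Sieve
import Pool.Agent.H24.AN.Defs

/-!
Almost all `v`: no nontrivial symmetric design on `v` points has an automorphism of order `q` with
an even number of fixed points (`q` a fixed odd prime).
-/

namespace Pool.Agent.H24.AN

open Finset Filter Topology Classical Pool.Agent.H96.Sing
open Pool.Agent.H12 (Qsq delta0 delta0_small count_not_exactly SymmetricDesignExists design_lt)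
open Pool.Agent.H70.SymDes (Exc exc_small SquareRatio)

/-- the order of a design with a square ratio, first case -/
lemma ratio_one {v k l s t : ℕ} (hs : 0 < s) (hst : Nat.Coprime s t) (hk : 1 < k) (hkv : k < v)
    (hl : l < k) (hlv : l * (v-1) = k * (k-1)) (h : k * (s^2+t^2) = s^2 * (v-1)) :
    ∃ x, k - l = s^2 * x ∧ (s^2+t^2)^2 * x = t^2 * v + s^2 := by
  have hcop : Nat.Coprime (s^2) (s^2+t^2) := by
    rw [Nat.coprime_self_add_right]
    exact Nat.Coprime.pow 2 2 hst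
  have hb0 : 0 < s^2+t^2 := by positivity
  have hs0 : 0 < s^2 := by positivity
  obtain ⟨m, hm⟩ : s^2+t^2 ∣ v - 1 := by
    apply hcop.symm.dvd_of_dvd_mul_left
    rw [← h]; exact Dvd.intro_left _ rfl
  have hk' : k = s^2 * m := by
    have h1 : k * (s^2+t^2) = (s^2 * m) * (s^2+t^2) := by rw [h, hm]; ring
    exact Nat.eq_of_mul_eq_mul_right hb0 h1
  have hm0 : 0 < m := by
    rcases Nat.eq_zero_or_pos m with h0 | h0
    · subst h0; omega
    · exact h0
  have h2 : l * (s^2+t^2) = s^2 * (k-1) := by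
    have h1 : (l * (s^2+t^2)) * m = (s^2 * (k-1)) * m := by
      calc (l * (s^2+t^2)) * m = l * (v-1) := by rw [hm]; ring
        _ = k * (k-1) := hlv
        _ = (s^2 * m) * (k-1) := by rw [← hk']
        _ = _ := by ring
    exact Nat.eq_of_mul_eq_mul_right hm0 h1
  obtain ⟨l', hl'⟩ : s^2 ∣ l := by
    apply hcop.dvd_of_dvd_mul_right
    rw [h2]; exact Dvd.intro _ rfl
  have h3 : l' * (s^2+t^2) = k - 1 := by
    have h1 : s^2 * (l' * (s^2+t^2)) = s^2 * (k-1) := by rw [← h2, hl']; ring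
    exact Nat.eq_of_mul_eq_mul_left hs0 h1
  have hlm : l' < m := by
    by_contra hcon
    push Not at hcon
    have := Nat.mul_le_mul_left (s^2) hcon
    rw [← hk', ← hl'] at this
    omega
  refine ⟨m - l', ?_, ?_⟩
  · rw [hk', hl', Nat.mul_sub]
  · obtain ⟨d, rfl⟩ : ∃ d, m = l' + d := ⟨m - l', by omega⟩
    have e1 : l' + d - l' = d := by omega
    rw [e1]
    obtain ⟨v', rfl⟩ : ∃ v', v = v' + 1 := ⟨v - 1, by omega⟩
    rw [Nat.add_sub_cancel] at hm
    obtain ⟨k', rfl⟩ : ∃ k', k = k' + 1 := ⟨k - 1, by omega⟩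
    rw [Nat.add_sub_cancel] at h3
    -- k' + 1 = s^2 (l'+d), l'(s^2+t^2) = k'
    have h4 : (s^2+t^2) * d = t^2 * (l' + d) + 1 := by
      have : s^2 * (l' + d) = l' * (s^2+t^2) + 1 := by rw [h3, ← hk']
      nlinarith
    calc (s^2+t^2)^2 * d = (s^2+t^2) * ((s^2+t^2) * d) := by ring
      _ = (s^2+t^2) * (t^2 * (l' + d) + 1) := by rw [h4]
      _ = t^2 * ((s^2+t^2) * (l' + d)) + (s^2+t^2) := by ring
      _ = t^2 * v' + (s^2+t^2) := by rw [hm]
      _ = _ := by ring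

/-- the order of a design with a square ratio, second case -/
lemma ratio_two {v k l s t : ℕ} (hs : 0 < s) (hst : Nat.Coprime s t) (hk : 1 < k) (hkv : k < v)
    (hl : l < k) (hlv : l * (v-1) = k * (k-1)) (h : (k-1) * (s^2+t^2) = s^2 * (v-1)) :
    ∃ x, k - l = t^2 * x ∧ (t^2+s^2)^2 * x = s^2 * v + t^2 := by
  have hcop : Nat.Coprime (s^2) (s^2+t^2) := by
    rw [Nat.coprime_self_add_right]
    exact Nat.Coprime.pow 2 2 hst
  have hb0 : 0 < s^2+t^2 := by positivity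
  have hs0 : 0 < s^2 := by positivity
  obtain ⟨m, hm⟩ : s^2+t^2 ∣ v - 1 := by
    apply hcop.symm.dvd_of_dvd_mul_left
    rw [← h]; exact Dvd.intro_left _ rfl
  have hk' : k - 1 = s^2 * m := by
    have h1 : (k-1) * (s^2+t^2) = (s^2 * m) * (s^2+t^2) := by rw [h, hm]; ring
    exact Nat.eq_of_mul_eq_mul_right hb0 h1
  have hm0 : 0 < m := by
    rcases Nat.eq_zero_or_pos m with h0 | h0
    · subst h0; omega
    · exact h0
  have h2 : l * (s^2+t^2) = s^2 * k := by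
    have h1 : (l * (s^2+t^2)) * m = (s^2 * k) * m := by
      calc (l * (s^2+t^2)) * m = l * (v-1) := by rw [hm]; ring
        _ = k * (k-1) := hlv
        _ = k * (s^2 * m) := by rw [← hk']
        _ = _ := by ring
    exact Nat.eq_of_mul_eq_mul_right hm0 h1
  obtain ⟨l', hl'⟩ : s^2 ∣ l := by
    apply hcop.dvd_of_dvd_mul_right
    rw [h2]; exact Dvd.intro _ rfl
  have h3 : l' * (s^2+t^2) = k := by
    have h1 : s^2 * (l' * (s^2+t^2)) = s^2 * k := by rw [← h2, hl']; ring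
    exact Nat.eq_of_mul_eq_mul_left hs0 h1
  refine ⟨l', ?_, ?_⟩
  · rw [hl', ← h3]
    have : l' * (s^2+t^2) = s^2 * l' + t^2 * l' := by ring
    omega
  · obtain ⟨v', rfl⟩ : ∃ v', v = v' + 1 := ⟨v - 1, by omega⟩
    rw [Nat.add_sub_cancel] at hm
    have h4 : l' * (s^2+t^2) = s^2 * m + 1 := by omega
    calc (t^2+s^2)^2 * l' = (s^2+t^2) * (l' * (s^2+t^2)) := by ring
      _ = (s^2+t^2) * (s^2 * m + 1) := by rw [h4]
      _ = s^2 * ((s^2+t^2) * m) + (s^2+t^2) := by ring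
      _ = s^2 * v' + (s^2+t^2) := by rw [hm]
      _ = _ := by ring

/-- the `v ≤ X` of one ratio -/
noncomputable def RS (q a c X : ℕ) : Finset ℕ :=
  (range (X+1)).filter (fun v => ∃ x, (a^2+c^2)^2 * x = c^2 * v + a^2 ∧
    ∀ p : ℕ, p.Prime → p ≠ q → ¬ IsSquare (p : ZMod q) → ¬ p ∣ a → ¬ (p ∣ x ∧ ¬ p^2 ∣ x))

lemma RS_small (q : ℕ) (hq : q.Prime) (hq2 : q ≠ 2) (a c : ℕ) (ha : 0 < a) (hc : 0 < c)
    (ε : ℝ) (hε : 0 < ε) : ∀ᶠ X : ℕ in atTop, ((RS q a c X).card : ℝ) ≤ ε * X := by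
  obtain ⟨D, hD, hDp⟩ := exists_disc q hq hq2
  have hD' : ¬ IsSquare (D * (a:ℤ)^2) := by
    rintro ⟨r, hr⟩
    apply hD
    have hdvd : (a:ℤ)^2 ∣ r^2 := ⟨D, by rw [sq r, ← hr]; ring⟩
    obtain ⟨r', rfl⟩ := (Int.pow_dvd_pow_iff (two_ne_zero)).mp hdvd
    refine ⟨r', ?_⟩
    have ha' : (a:ℤ)^2 ≠ 0 := by positivity
    apply mul_right_cancel₀ ha'
    rw [hr]; ring
  obtain ⟨P, hP, hPε⟩ := delta0_small _ hD' (ε/2) (by positivity)
  have hP' : ∀ p ∈ P, p.Prime ∧ p ≠ q ∧ ¬ IsSquare (p : ZMod q) ∧ ¬ p ∣ a := by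
    intro p hp
    obtain ⟨h1, h2⟩ := hP p hp
    have h3 : ¬ IsSquare (D : ZMod p) := by
      rintro ⟨r, hr⟩
      apply h2
      refine ⟨r * a, ?_⟩
      push_cast
      rw [hr]; ring
    obtain ⟨h4, h5⟩ := hDp p h1 h3
    refine ⟨h1, h4, h5, fun hpa => h2 ?_⟩
    have : ((a:ℕ) : ZMod p) = 0 := (ZMod.natCast_eq_zero_iff a p).mpr hpa
    refine ⟨0, ?_⟩
    push_cast
    rw [this]; ring
  set W : ℝ := (2 + Qsq P) * (ε/2) with hW
  filter_upwards [tendsto_natCast_atTop_atTop.eventually_gt_atTop (2 * W / ε : ℝ)] with X hX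
  have h1 : (RS q a c X).card ≤ ((range (X+2)).filter (fun z => ∀ p ∈ P, ¬ (p ∣ z ∧ ¬ p^2 ∣ z))).card := by
    have hc' : ∀ v ∈ RS q a c X, ∃ x, (a^2+c^2)^2 * x = c^2 * v + a^2 ∧
        ∀ p : ℕ, p.Prime → p ≠ q → ¬ IsSquare (p : ZMod q) → ¬ p ∣ a → ¬ (p ∣ x ∧ ¬ p^2 ∣ x) := by
      intro v hv
      unfold RS at hv
      rw [mem_filter] at hv
      exact hv.2
    choose! f hf using hc'
    refine card_le_card_of_injOn f ?_ ?_
    · intro v hv
      obtain ⟨h2, h3⟩ := hf v hv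
      rw [mem_coe] at hv
      unfold RS at hv
      rw [mem_filter, mem_range] at hv
      rw [mem_coe, mem_filter, mem_range]
      refine ⟨?_, fun p hp => ?_⟩
      · by_contra hcon
        push Not at hcon
        have h4 : (a^2+c^2)^2 * (X+2) ≤ c^2 * X + a^2 := by
          calc (a^2+c^2)^2 * (X+2) ≤ (a^2+c^2)^2 * f v := Nat.mul_le_mul_left _ hcon
            _ = c^2 * v + a^2 := h2
            _ ≤ c^2 * X + a^2 := by
              have : v ≤ X := by omega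
              have := Nat.mul_le_mul_left (c^2) this
              omega
        have hb1 : 1 ≤ a^2+c^2 := by
          have h0 : 0 < a^2 := by positivity
          omega
        have h5 : c^2 ≤ (a^2+c^2)^2 := by
          have : 1 ≤ a^2+c^2 := hb1
          calc c^2 ≤ (a^2+c^2) * 1 := by omega
            _ ≤ (a^2+c^2) * (a^2+c^2) := Nat.mul_le_mul_left _ this
            _ = _ := by ring
        have h6 : a^2 ≤ (a^2+c^2)^2 := by
          have : 1 ≤ a^2+c^2 := hb1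
          calc a^2 ≤ (a^2+c^2) * 1 := by omega
            _ ≤ (a^2+c^2) * (a^2+c^2) := Nat.mul_le_mul_left _ this
            _ = _ := by ring
        have h7 : 0 < (a^2+c^2)^2 := by positivity
        nlinarith
      · obtain ⟨e1, e2, e3, e4⟩ := hP' p hp
        exact h3 p e1 e2 e3 e4
    · intro v hv v' hv' h
      have h2 := (hf v hv).1
      have h3 := (hf v' hv').1
      rw [h, h3] at h2
      have h4 : c^2 * v' = c^2 * v := by omega
      exact (Nat.eq_of_mul_eq_mul_left (by positivity) h4).symm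
  have h2 := count_not_exactly P (fun p hp => (hP' p hp).1) (X+2)
  have h3 : (((range (X+2)).filter (fun z => ∀ p ∈ P, ¬ (p ∣ z ∧ ¬ p^2 ∣ z))).card : ℝ) ≤
      ((X+2:ℕ) + Qsq P) * (ε/2) := by
    refine h2.trans ?_
    exact mul_le_mul_of_nonneg_left hPε.le (by positivity)
  have h4 : ((RS q a c X).card : ℝ) ≤ ((X+2:ℕ) + Qsq P) * (ε/2) := by
    refine le_trans ?_ h3
    exact_mod_cast h1
  refine h4.trans ?_
  push_cast
  have h5 : W < X * ε / 2 := by
    rw [div_lt_iff₀ hε] at hX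
    linarith
  have h6 : ((X:ℝ) + 2 + Qsq P) * (ε/2) = X * (ε/2) + W := by rw [hW]; ring
  rw [h6]
  linarith

lemma even_sub (q : ℕ) (hq : q.Prime) (hq2 : q ≠ 2) (A X : ℕ) :
    evenOrders q X ⊆ ↑((range (X+1)).filter (Exc A) ∪
      ((Icc 1 A) ×ˢ (Icc 1 A)).biUnion (fun x => RS q x.1 x.2 X) : Finset ℕ) := by
  rintro v ⟨hvX, k, l, B, hk, hkv, hd, s', hs', hsq, hev⟩
  rw [mem_coe, mem_union]
  by_cases hexc : Exc A v
  · left
    rw [mem_filter, mem_range]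
    exact ⟨by omega, hexc⟩
  right
  have h1 : v % 4 = 3 ∧ SquareRatio A v k := by
    by_contra hcon
    exact hexc ⟨k, l, hk, hkv, toH12 hd, hcon⟩
  obtain ⟨hv4, s, t, hs, ht, hst, hA, hrat⟩ := h1
  obtain ⟨hlk, hlv⟩ := design_lt (by omega) (toH12 hd)
  have hvodd : Odd v := Nat.odd_iff.mpr (by omega)
  have hno : ∀ p : ℕ, p.Prime → p ≠ q → ¬ IsSquare (p : ZMod q) → ¬ (p ∣ k - l ∧ ¬ p^2 ∣ k - l) :=
    fun p hp hpq hns => no_exact hd hlk hvodd s' hs' q hq hq2 (orderOf_dvd hsq) hev p hp hns hpq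
  have key : ∀ a c x : ℕ, 0 < a → k - l = a^2 * x → ∀ p : ℕ, p.Prime → p ≠ q →
      ¬ IsSquare (p : ZMod q) → ¬ p ∣ a → ¬ (p ∣ x ∧ ¬ p^2 ∣ x) := by
    rintro a c x ha hax p hp hpq hns hpa ⟨h1, h2⟩
    apply hno p hp hpq hns
    rw [hax]
    refine ⟨Dvd.dvd.mul_left h1 _, fun h3 => h2 ?_⟩
    have hcop : Nat.Coprime (p^2) (a^2) := Nat.Coprime.pow 2 2 ((Nat.Prime.coprime_iff_not_dvd hp).mpr hpa)
    exact hcop.dvd_of_dvd_mul_left h3
  rw [mem_biUnion]
  have hsA : s ≤ A := by nlinarith [sq_nonneg t]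
  have htA : t ≤ A := by nlinarith [sq_nonneg s]
  rcases hrat with hr | hr
  · obtain ⟨x, hx1, hx2⟩ := ratio_two hs hst hk (by omega) hlk hlv hr
    refine ⟨(t, s), ?_, ?_⟩
    · rw [mem_product, mem_Icc, mem_Icc]
      exact ⟨⟨ht, htA⟩, ⟨hs, hsA⟩⟩
    · unfold RS
      rw [mem_filter, mem_range]
      exact ⟨by omega, x, hx2, key t s x ht hx1⟩
  · obtain ⟨x, hx1, hx2⟩ := ratio_one hs hst hk (by omega) hlk hlv hr
    refine ⟨(s, t), ?_, ?_⟩
    · rw [mem_product, mem_Icc, mem_Icc]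
      exact ⟨⟨hs, hsA⟩, ⟨ht, htA⟩⟩
    · unfold RS
      rw [mem_filter, mem_range]
      exact ⟨by omega, x, hx2, key s t x hs hx1⟩

/-- **Theorem A** -/
theorem even_small (q : ℕ) (hq : q.Prime) (hq2 : q ≠ 2) (ε : ℝ) (hε : 0 < ε) :
    ∀ᶠ X : ℕ in atTop, ((evenOrders q X).ncard : ℝ) ≤ ε * X := by
  obtain ⟨A, hA⟩ := exc_small (ε/2) (by positivity)
  have h1 : ∀ᶠ X : ℕ in atTop, ∀ x ∈ (Icc 1 A) ×ˢ (Icc 1 A),
      ((RS q x.1 x.2 X).card : ℝ) ≤ (ε / (2 * (A^2 + 1))) * X := by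
    rw [Filter.eventually_all_finset]
    intro x hx
    rw [mem_product, mem_Icc, mem_Icc] at hx
    exact RS_small q hq hq2 x.1 x.2 (by omega) (by omega) _ (by positivity)
  filter_upwards [hA, h1] with X hX hX1
  have h2 : (evenOrders q X).ncard ≤ ((range (X+1)).filter (Exc A) ∪
      ((Icc 1 A) ×ˢ (Icc 1 A)).biUnion (fun x => RS q x.1 x.2 X) : Finset ℕ).card := by
    rw [← Set.ncard_coe_finset]
    exact Set.ncard_le_ncard (even_sub q hq hq2 A X) (Finset.finite_toSet _)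
  have h3 := card_union_le ((range (X+1)).filter (Exc A))
    (((Icc 1 A) ×ˢ (Icc 1 A)).biUnion (fun x => RS q x.1 x.2 X))
  have h4 : ((((Icc 1 A) ×ˢ (Icc 1 A)).biUnion (fun x => RS q x.1 x.2 X)).card : ℝ) ≤
      ∑ x ∈ (Icc 1 A) ×ˢ (Icc 1 A), ((RS q x.1 x.2 X).card : ℝ) := by
    exact_mod_cast card_biUnion_le
  have h5 : ((((Icc 1 A) ×ˢ (Icc 1 A)).biUnion (fun x => RS q x.1 x.2 X)).card : ℝ) ≤
      ε/2 * X := by
    refine h4.trans ((sum_le_sum hX1).trans ?_)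
    rw [sum_const, card_product, Nat.card_Icc, nsmul_eq_mul]
    have e1 : (((A + 1 - 1) * (A + 1 - 1) : ℕ) : ℝ) = (A:ℝ)^2 := by
      rw [Nat.add_sub_cancel]; push_cast; ring
    rw [e1]
    have e2 : (A:ℝ)^2 * (ε / (2 * ((A:ℝ)^2 + 1)) * X) = ((A:ℝ)^2 / ((A:ℝ)^2 + 1)) * (ε/2 * X) := by
      field_simp
    rw [e2]
    have e3 : (A:ℝ)^2 / ((A:ℝ)^2 + 1) ≤ 1 := by
      rw [div_le_one (by positivity)]; linarith
    have e4 : 0 ≤ ε/2 * X := by positivity
    nlinarith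
  have h6 : ((evenOrders q X).ncard : ℝ) ≤ ((range (X+1)).filter (Exc A)).card +
      (((Icc 1 A) ×ˢ (Icc 1 A)).biUnion (fun x => RS q x.1 x.2 X)).card := by
    exact_mod_cast h2.trans h3
  linarith

lemma even_finite (q X : ℕ) : (evenOrders q X).Finite :=
  (Set.finite_Iic X).subset fun _ hv => hv.1

lemma tendsto_of_small (f : ℕ → ℝ) (hf : ∀ X, 0 ≤ f X)
    (h : ∀ ε : ℝ, 0 < ε → ∀ᶠ X : ℕ in atTop, f X ≤ ε * X) :
    Tendsto (fun X : ℕ => f X / X) atTop (𝓝 0) := by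
  rw [Metric.tendsto_nhds]
  intro ε hε
  filter_upwards [h (ε/2) (by positivity), eventually_gt_atTop 0] with X hX hX0
  have hX0' : (0:ℝ) < X := by exact_mod_cast hX0
  have := hf X
  rw [Real.dist_eq, sub_zero, abs_of_nonneg (by positivity), div_lt_iff₀ hX0']
  nlinarith

end Pool.Agent.H24.AN
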