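import Mathlib
import Pool.Agent.H24.AN.Main
import Pool.Agent.H24.AN.Box

/-!
The uniform theorem: for almost all `v` no nontrivial symmetric design on `v` points has an
automorphism of prime order dividing `v` with an even number of fixed points.
-/

namespace Pool.Agent.H24.AN

open Finset Filter Topology Classical Pool.Agent.H96.Sing
open Pool.Agent.H12 (Qsq delta0 delta0_small count_not_exactly SymmetricDesignExists design_lt)
open Pool.Agent.H70.SymDes (Exc exc_small SquareRatio PP rr SS YY th bt bt_ge bt_succ SS_ge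
  SS_nonneg tail_small exists_scale mem_PP)

/-- quadratic reciprocity, explicit form -/
lemma recip (q : ℕ) (hq : q.Prime) (hq2 : q ≠ 2) : ∃ e : ℤ, (e = 1 ∨ e = -1) ∧
    ∀ p : ℕ, p.Prime → ¬ IsSquare ((e : ZMod p) * (q : ZMod p)) →
      p ≠ q ∧ ¬ IsSquare (p : ZMod q) := by
  have : Fact q.Prime := ⟨hq⟩
  have hp2 : ∀ (D : ℤ) (p : ℕ), ¬ IsSquare (D : ZMod p) → p ≠ 2 := by
    rintro D p h rfl
    apply h
    have : ∀ x : ZMod 2, IsSquare x := by decide
    exact this _
  rcases hq.eq_two_or_odd with h | hodd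
  · exact absurd h hq2
  have h4 : q % 4 = 1 ∨ q % 4 = 3 := by omega
  rcases h4 with h4 | h4
  · refine ⟨1, Or.inl rfl, fun p hp hns => ?_⟩
    rw [Int.cast_one, one_mul] at hns
    have : Fact p.Prime := ⟨hp⟩
    have hp2' : p ≠ 2 := hp2 q p (by push_cast; exact hns)
    refine ⟨?_, fun hsq => hns ?_⟩
    · rintro rfl
      apply hns
      simp
    · exact (ZMod.exists_sq_eq_prime_iff_of_mod_four_eq_one (p := q) (q := p) h4 hp2').mp hsq
  · refine ⟨-1, Or.inr rfl, fun p hp hns => ?_⟩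
    have : Fact p.Prime := ⟨hp⟩
    rw [Int.cast_neg, Int.cast_one, neg_one_mul] at hns
    have hp2' : p ≠ 2 := hp2 (-q) p (by push_cast; exact hns)
    have hpq : p ≠ q := by
      rintro rfl
      apply hns
      simp
    refine ⟨hpq, fun hsq => hns ?_⟩
    have h5 : p % 4 = 1 ∨ p % 4 = 3 := by
      have := hp.eq_two_or_odd
      omega
    rcases h5 with h5 | h5
    · have h6 := (ZMod.exists_sq_eq_prime_iff_of_mod_four_eq_one (p := p) (q := q) h5 hq2).mpr hsq
      have h7 : IsSquare (-1 : ZMod p) := ZMod.exists_sq_eq_neg_one_iff.mpr (by omega)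
      have := h7.mul h6
      rwa [neg_one_mul] at this
    · have h6 := (ZMod.exists_sq_eq_prime_iff_of_mod_four_eq_three (p := q) (q := p) h4 h5
        hpq.symm).mp hsq
      have h7 : ¬ IsSquare (-1 : ZMod p) := by
        rw [ZMod.exists_sq_eq_neg_one_iff]; omega
      have e1 : legendreSym p (-1) = -1 := by
        rw [legendreSym.eq_neg_one_iff]; push_cast; exact h7
      have e2 : legendreSym p (q:ℤ) = -1 := by
        rw [legendreSym.eq_neg_one_iff]; push_cast; exact h6
      have e3 : legendreSym p (-1 * (q:ℤ)) = 1 := by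
        rw [legendreSym.mul, e1, e2]; norm_num
      have hq0 : ((-1 * (q:ℤ) : ℤ) : ZMod p) ≠ 0 := by
        intro h0
        rw [(legendreSym.eq_zero_iff p _).mpr h0] at e3
        norm_num at e3
      have := (legendreSym.eq_one_iff p hq0).mp e3
      rw [neg_one_mul] at this
      simpa using this

/-- the `v ≤ X` of one ratio, all `q ∣ v` -/
noncomputable def US (a c X : ℕ) : Finset ℕ :=
  (range (X+1)).filter (fun v => 0 < v ∧ ∃ q : ℕ, q.Prime ∧ q ≠ 2 ∧ q ∣ v ∧
    ∃ x, (a^2+c^2)^2 * x = c^2 * v + a^2 ∧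
    ∀ p : ℕ, p.Prime → p ≠ q → ¬ IsSquare (p : ZMod q) → ¬ p ∣ a → ¬ (p ∣ x ∧ ¬ p^2 ∣ x))

/-- the modulus whose prime factors are not used -/
def mm (a c : ℕ) : ℕ := a * c * (a^2 + c^2)

/-- one block, one sign -/
noncomputable def Blk (a c : ℕ) (e : ℤ) (i j X : ℕ) : Finset ℕ :=
  ((range (2^(j+1)) ×ˢ range (X/2^j+1)).filter (fun ω : ℕ × ℕ =>
      ∀ p ∈ PQ (mm a c) i, ¬ BE a c e p ω.1 ω.2)).image (fun ω => ω.1 * ω.2)

lemma card_Blk (a c : ℕ) (ha : 0 < a) (hc : 0 < c) (e : ℤ) (he : e = 1 ∨ e = -1) (i j X : ℕ)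
    (h1 : bt i ≤ j) (h2 : 2^(j + bt i) ≤ X) : ((Blk a c e i j X).card : ℝ) ≤
      KB (mm a c) * X * Real.exp (-(3/2 * SS i)) := by
  have hm : 0 < mm a c := by unfold mm; positivity
  refine le_trans ?_ (box_count a c (mm a c) hm
    ⟨a * (a^2+c^2), by unfold mm; ring⟩ e he i j X h1 h2)
  exact_mod_cast card_image_le

/-- the blocks treated with scale `i` -/
noncomputable def JB (i L : ℕ) : Finset ℕ := (range (L+1)).filter (fun j =>
  bt i ≤ j ∧ j + bt i ≤ L ∧ (j < bt (i+1) ∨ L < j + bt (i+1)))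

lemma card_JB (i L : ℕ) : (JB i L).card ≤ 2 * bt (i+1) := by
  have hsub : JB i L ⊆ range (bt (i+1)) ∪ (range (L+1)).filter (fun j =>
      j ≤ L ∧ L < j + bt (i+1)) := by
    intro j hj
    unfold JB at hj
    rw [mem_filter] at hj
    rw [mem_union, mem_range, mem_filter]
    rcases hj.2.2.2 with h | h
    · left; exact h
    · right; exact ⟨hj.1, by omega, h⟩
  have h2 : ((range (L+1)).filter (fun j => j ≤ L ∧ L < j + bt (i+1))).card ≤
      (range (bt (i+1))).card := by
    refine card_le_card_of_injOn (fun j => L - j) ?_ ?_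
    · intro j hj
      rw [mem_coe, mem_filter] at hj
      rw [mem_coe, mem_range]
      simp only
      omega
    · intro j hj j' hj' h
      rw [mem_coe, mem_filter] at hj hj'
      simp only at h
      omega
  have h3 := (card_le_card hsub).trans (card_union_le _ _)
  rw [card_range] at h3 h2
  omega

/-- the last blocks -/
noncomputable def Hi (b X : ℕ) : Finset ℕ :=
  ((range (X+1)).filter Nat.Prime ×ˢ range (2^b)).image (fun ω => ω.1 * ω.2)

lemma card_primes (ε : ℝ) (hε : 0 < ε) : ∀ᶠ X : ℕ in atTop,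
    (((range (X+1)).filter Nat.Prime).card : ℝ) ≤ ε * X := by
  have hdiv : ∀ C : ℝ, ∃ P : Finset ℕ, (∀ q ∈ P, q ∈ {q : ℕ | q.Prime}) ∧
      C < ∑ q ∈ P, (1:ℝ)/q := by
    intro C
    have h0 : ¬ Summable (fun p : Nat.Primes => 1 / (p : ℝ)) := Nat.Primes.not_summable_one_div
    have h1 : ∃ u : Finset Nat.Primes, C < ∑ q ∈ u, (1:ℝ)/(q:ℕ) := by
      by_contra hcon
      push Not at hcon
      exact h0 (summable_of_sum_le (fun q => by positivity) hcon)
    obtain ⟨u, hu⟩ := h1
    refine ⟨u.image (fun q : Nat.Primes => (q:ℕ)), ?_, ?_⟩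
    · intro q hq
      rw [mem_image] at hq
      obtain ⟨q', -, rfl⟩ := hq
      exact q'.2
    · have h2 := Finset.sum_image (f := fun n : ℕ => (1:ℝ)/n) (s := u)
        (g := fun q : Nat.Primes => (q:ℕ)) (fun x _ y _ h => Subtype.ext h)
      exact hu.trans_eq h2.symm
  obtain ⟨P, hP, hPε⟩ := Pool.Agent.H24.DS.prod_small {q : ℕ | q.Prime} (fun q hq => hq) hdiv
    (ε/4) (by positivity)
  set W : ℝ := (∏ q ∈ P, (q:ℝ)) with hW
  filter_upwards [tendsto_natCast_atTop_atTop.eventually_ge_atTop (W : ℝ),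
    tendsto_natCast_atTop_atTop.eventually_ge_atTop (2 * P.card / ε : ℝ)] with X hXW hXP
  have h1 : (range (X+1)).filter Nat.Prime ⊆
      P ∪ (range (X+1)).filter (fun v => ∀ q ∈ P, ¬ v ≡ 0 [MOD q]) := by
    intro r hr
    rw [mem_filter] at hr
    rw [mem_union, mem_filter]
    by_cases h : r ∈ P
    · left; exact h
    · right
      refine ⟨hr.1, fun q hq hmod => h ?_⟩
      have h2 := (Nat.prime_dvd_prime_iff_eq (hP q hq) hr.2).mp
        ((Nat.modEq_zero_iff_dvd).mp hmod)
      rw [← h2]; exact hq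
  have h2 := (card_le_card h1).trans (card_union_le _ _)
  have h6 := Pool.Agent.H24.DS.count_avoid P (fun q hq => hP q hq) (fun _ => 0) X
  have h7 : ((X:ℝ) + ∏ q ∈ P, (q:ℝ)) * ∏ q ∈ P, (1 - 1/(q:ℝ)) ≤ (X + X) * (ε/4) := by
    refine mul_le_mul (by linarith) hPε.le ?_ (by positivity)
    refine prod_nonneg fun q hq => ?_
    have h1 : (1:ℝ) ≤ q := by
      have h2 : q.Prime := hP q hq
      exact_mod_cast h2.one_lt.le
    have : 1/(q:ℝ) ≤ 1 := by rw [div_le_one (by positivity)]; exact h1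
    linarith
  have h8 : (((range (X+1)).filter Nat.Prime).card : ℝ) ≤ P.card +
      ((range (X+1)).filter (fun v => ∀ q ∈ P, ¬ v ≡ 0 [MOD q])).card := by exact_mod_cast h2
  have h9 : (P.card : ℝ) ≤ ε / 2 * X := by
    have h10 : 2 * (P.card : ℝ) / ε ≤ X := hXP
    rw [div_le_iff₀ hε] at h10
    linarith
  linarith

lemma card_Hi (b : ℕ) (ε : ℝ) (hε : 0 < ε) : ∀ᶠ X : ℕ in atTop,
    ((Hi b X).card : ℝ) ≤ ε * X := by
  filter_upwards [card_primes (ε / 2^b) (by positivity)] with X hX
  have h1 : (Hi b X).card ≤ ((range (X+1)).filter Nat.Prime).card * 2^b := by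
    refine card_image_le.trans ?_
    rw [card_product, card_range]
  have h2 : ((Hi b X).card : ℝ) ≤ (((range (X+1)).filter Nat.Prime).card : ℝ) * 2^b := by
    exact_mod_cast h1
  refine h2.trans ((mul_le_mul_of_nonneg_right hX (by positivity)).trans (le_of_eq ?_))
  field_simp

lemma US_cover (a c : ℕ) (_ha : 0 < a) (_hc : 0 < c) (i0 X : ℕ) (_hX : X ≠ 0) :
    US a c X ⊆ ((range (2^(bt i0))).filter (fun q => q.Prime ∧ q ≠ 2)).biUnion
        (fun q => RS q a c X) ∪
      ((Icc i0 (Nat.log 2 X)).biUnion (fun i => (JB i (Nat.log 2 X)).biUnion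
        (fun j => Blk a c 1 i j X ∪ Blk a c (-1) i j X)) ∪ Hi (bt i0) X) := by
  intro v hv
  unfold US at hv
  rw [mem_filter, mem_range] at hv
  obtain ⟨hvX, hv0, q, hq, hq2, hqv, x, hx, hcond⟩ := hv
  set L := Nat.log 2 X with hL
  rw [mem_union, mem_union]
  by_cases hlow : q < 2^(bt i0)
  · left
    rw [mem_biUnion]
    refine ⟨q, ?_, ?_⟩
    · rw [mem_filter, mem_range]; exact ⟨hlow, hq, hq2⟩
    · unfold RS
      rw [mem_filter, mem_range]
      exact ⟨hvX, x, hx, hcond⟩
  right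
  push Not at hlow
  obtain ⟨w, rfl⟩ := hqv
  have hw0 : 0 < w := by
    rcases Nat.eq_zero_or_pos w with h0 | h0
    · subst h0; simp at hv0
    · exact h0
  set j := Nat.log 2 q with hj
  have hq0 : q ≠ 0 := hq.ne_zero
  have hj1 : 2^j ≤ q := Nat.pow_log_le_self 2 hq0
  have hj2 : q < 2^(j+1) := Nat.lt_pow_succ_log_self (by norm_num) _
  have hjb : bt i0 ≤ j := by
    rw [hj, Nat.le_log_iff_pow_le (by norm_num) hq0]
    exact hlow
  have hqX : q ≤ X := by
    have : q * 1 ≤ q * w := Nat.mul_le_mul_left q hw0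
    omega
  have hjL : j ≤ L := by
    rw [hj, hL]
    exact Nat.log_mono_right hqX
  have hwX : w ≤ X / 2^j := by
    rw [Nat.le_div_iff_mul_le (by positivity)]
    calc w * 2^j ≤ w * q := Nat.mul_le_mul_left w hj1
      _ = q * w := Nat.mul_comm _ _
      _ ≤ X := by omega
  by_cases htop : L < j + bt i0
  · right
    unfold Hi
    rw [mem_image]
    refine ⟨(q, w), ?_, rfl⟩
    rw [mem_product, mem_filter, mem_range, mem_range]
    refine ⟨⟨by omega, hq⟩, ?_⟩
    have h1 : X < 2^(L+1) := Nat.lt_pow_succ_log_self (by norm_num) _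
    have h2 : w * 2^j ≤ X := (Nat.le_div_iff_mul_le (by positivity)).mp hwX
    have h3 : w * 2^j < 2^(bt i0) * 2^j := by
      calc w * 2^j ≤ X := h2
        _ < 2^(L+1) := h1
        _ ≤ 2^(bt i0 + j) := Nat.pow_le_pow_right (by norm_num) (by omega)
        _ = 2^(bt i0) * 2^j := by rw [pow_add]
    exact Nat.lt_of_mul_lt_mul_right h3
  · left
    push Not at htop
    obtain ⟨i, hi0, him, hbi, hbi'⟩ := exists_scale i0 (min j (L - j)) (by
      rw [le_min_iff]; constructor <;> omega)
    have hb1 := hbi.trans (min_le_left _ _)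
    have hb2 := hbi.trans (min_le_right _ _)
    rw [mem_biUnion]
    refine ⟨i, ?_, ?_⟩
    · rw [mem_Icc]
      have := min_le_left j (L - j)
      omega
    rw [mem_biUnion]
    refine ⟨j, ?_, ?_⟩
    · unfold JB
      rw [mem_filter, mem_range]
      refine ⟨by omega, hb1, by omega, ?_⟩
      rcases min_lt_iff.mp hbi' with h | h
      · left; exact h
      · right; omega
    · obtain ⟨e, he, hrec⟩ := recip q hq hq2
      have hmem : q * w ∈ Blk a c e i j X := by
        unfold Blk
        rw [mem_image]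
        refine ⟨(q, w), ?_, rfl⟩
        rw [mem_filter, mem_product, mem_range, mem_range]
        refine ⟨⟨hj2, by omega⟩, fun p hp hbe => ?_⟩
        unfold PQ at hp
        rw [mem_filter, mem_PP] at hp
        obtain ⟨⟨hp2, hplt, hpp⟩, hpm⟩ := hp
        have hpa : ¬ p ∣ a := fun h => hpm (by
          unfold mm; exact Dvd.dvd.mul_right (Dvd.dvd.mul_right h _) _)
        have hpb : ¬ p ∣ a^2+c^2 := fun h => hpm (by
          unfold mm; exact Dvd.dvd.mul_left h _)
        rcases hbe with h | ⟨h1, h2, h3⟩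
        · have h4 : p = q := (Nat.prime_dvd_prime_iff_eq hpp hq).mp h
          have h5 : 2^i ≤ bt i := by
            unfold bt rr
            have : 1 ≤ 7 * (100 * (i+2)) := by omega
            calc 2^i = 1 * 2^i := (one_mul _).symm
              _ ≤ 7 * (100 * (i+2)) * 2^i := Nat.mul_le_mul_right _ this
          have h6 : 2^(2^i) ≤ 2^j := Nat.pow_le_pow_right (by norm_num) (h5.trans hb1)
          simp only at h
          omega
        · obtain ⟨h4, h5⟩ := hrec p hpp h1
          apply hcond p hpp h4 h5 hpa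
          have e1 : c^2*q*w + a^2 = (a^2+c^2)^2 * x := by rw [hx]; ring
          simp only [e1] at h2 h3
          have hcop : Nat.Coprime p ((a^2+c^2)^2) :=
            Nat.Coprime.pow_right 2 ((Nat.Prime.coprime_iff_not_dvd hpp).mpr hpb)
          refine ⟨hcop.dvd_of_dvd_mul_left h2, fun h6 => h3 (Dvd.dvd.mul_left h6 _)⟩
      rw [mem_union]
      rcases he with rfl | rfl
      · left; exact hmem
      · right; exact hmem

lemma summable_fB (K : ℝ) (hK : 0 ≤ K) : Summable (fun i : ℕ =>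
    (2 * (bt (i+1) : ℝ)) * (K * Real.exp (-(3/2 * SS i)))) := by
  have hlog := Real.log_pos (show (1:ℝ) < 2 by norm_num)
  set ρ := Real.exp (-(Real.log 2 / 2)) with hρ
  have hρ1 : ‖ρ‖ < 1 := by
    rw [Real.norm_eq_abs, abs_of_pos (Real.exp_pos _), Real.exp_lt_one_iff]
    linarith
  have h0 := summable_pow_mul_geometric_of_norm_lt_one (R := ℝ) 1 hρ1
  have h0' := summable_pow_mul_geometric_of_norm_lt_one (R := ℝ) 0 hρ1
  have h1 : Summable (fun i : ℕ => (2800 * K * Real.exp (9/2 * Real.log 2)) *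
      (((i:ℝ)^1 * ρ^i) + 3 * ((i:ℝ)^0 * ρ^i))) :=
    (h0.add (h0'.mul_left 3)).mul_left _
  refine Summable.of_nonneg_of_le (fun i => by positivity) (fun i => ?_) h1
  rw [bt_succ]
  have h2 : Real.exp (-(3/2 * SS i)) ≤ Real.exp (9/2 * Real.log 2) *
      Real.exp (-(3/2 * Real.log 2) * i) := by
    rw [← Real.exp_add, Real.exp_le_exp]
    have := SS_ge i
    nlinarith
  have h3 : (2:ℝ)^i = Real.exp (Real.log 2 * i) := by
    rw [← Real.exp_log (show (0:ℝ) < 2^i by positivity), Real.log_pow]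
    ring_nf
  have h4 : ρ^i = Real.exp (-(Real.log 2 / 2) * i) := by
    rw [hρ, ← Real.exp_nat_mul]; ring_nf
  have h5 : Real.exp (Real.log 2 * i) * Real.exp (-(3/2 * Real.log 2) * i) = ρ^i := by
    rw [h4, ← Real.exp_add]; congr 1; ring
  rw [pow_one, pow_zero, one_mul, h3]
  calc 2 * (1400 * ((i:ℝ) + 3) * Real.exp (Real.log 2 * i)) * (K * Real.exp (-(3/2 * SS i)))
      ≤ 2 * (1400 * ((i:ℝ) + 3) * Real.exp (Real.log 2 * i)) * (K *
        (Real.exp (9/2 * Real.log 2) * Real.exp (-(3/2 * Real.log 2) * i))) := by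
        gcongr
    _ = (2800 * K * Real.exp (9/2 * Real.log 2)) * (((i:ℝ) + 3) *
        (Real.exp (Real.log 2 * i) * Real.exp (-(3/2 * Real.log 2) * i))) := by ring
    _ = _ := by rw [h5]; ring

lemma US_small (a c : ℕ) (ha : 0 < a) (hc : 0 < c) (ε : ℝ) (hε : 0 < ε) :
    ∀ᶠ X : ℕ in atTop, ((US a c X).card : ℝ) ≤ ε * X := by
  set K := 2 * KB (mm a c) with hK
  have hK0 : 0 ≤ K := by rw [hK]; unfold KB; positivity
  obtain ⟨i0, hi0⟩ := tail_small _ (summable_fB K hK0) (ε/4) (by positivity)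
  set b := bt i0 with hb
  set Q := (range (2^b)).filter (fun q => q.Prime ∧ q ≠ 2) with hQ
  have h1 : ∀ᶠ X : ℕ in atTop, ∀ q ∈ Q, ((RS q a c X).card : ℝ) ≤
      (ε / (4 * (Q.card + 1))) * X := by
    rw [Filter.eventually_all_finset]
    intro q hq
    rw [hQ, mem_filter] at hq
    exact RS_small q hq.2.1 hq.2.2 a c ha hc _ (by positivity)
  filter_upwards [h1, card_Hi b (ε/4) (by positivity), eventually_gt_atTop 0] with X hX1 hX2 hX0
  set L := Nat.log 2 X with hL
  have hLX : 2^L ≤ X := Nat.pow_log_le_self 2 hX0.ne'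
  have hXr : (0:ℝ) ≤ X := by positivity
  have hcov := card_le_card (US_cover a c ha hc i0 X hX0.ne')
  have c1 := card_union_le (Q.biUnion (fun q => RS q a c X))
    ((Icc i0 L).biUnion (fun i => (JB i L).biUnion
        (fun j => Blk a c 1 i j X ∪ Blk a c (-1) i j X)) ∪ Hi b X)
  have c2 := card_union_le ((Icc i0 L).biUnion (fun i => (JB i L).biUnion
        (fun j => Blk a c 1 i j X ∪ Blk a c (-1) i j X))) (Hi b X)
  have d1 : ((Q.biUnion (fun q => RS q a c X)).card : ℝ) ≤ ε/4 * X := by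
    have e1 : ((Q.biUnion (fun q => RS q a c X)).card : ℝ) ≤ ∑ q ∈ Q, ((RS q a c X).card : ℝ) := by
      exact_mod_cast card_biUnion_le
    refine e1.trans ((sum_le_sum hX1).trans ?_)
    rw [sum_const, nsmul_eq_mul]
    have e2 : (Q.card : ℝ) * (ε / (4 * (Q.card + 1)) * X) =
        ((Q.card : ℝ) / (Q.card + 1)) * (ε/4 * X) := by field_simp
    rw [e2]
    have e3 : (Q.card : ℝ) / (Q.card + 1) ≤ 1 := by
      rw [div_le_one (by positivity)]; linarith
    have e4 : 0 ≤ ε/4 * X := by positivity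
    nlinarith
  have d3 : (((Icc i0 L).biUnion (fun i => (JB i L).biUnion
      (fun j => Blk a c 1 i j X ∪ Blk a c (-1) i j X))).card : ℝ) ≤ ε/4 * X := by
    have e1 : (((Icc i0 L).biUnion (fun i => (JB i L).biUnion
        (fun j => Blk a c 1 i j X ∪ Blk a c (-1) i j X))).card : ℝ) ≤
        ∑ i ∈ Icc i0 L, (((JB i L).biUnion
          (fun j => Blk a c 1 i j X ∪ Blk a c (-1) i j X)).card : ℝ) := by
      exact_mod_cast card_biUnion_le
    refine e1.trans ?_
    have e2 : ∀ i ∈ Icc i0 L, (((JB i L).biUnion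
        (fun j => Blk a c 1 i j X ∪ Blk a c (-1) i j X)).card : ℝ) ≤
        X * ((2 * (bt (i+1) : ℝ)) * (K * Real.exp (-(3/2 * SS i)))) := by
      intro i _
      have e3 : (((JB i L).biUnion
          (fun j => Blk a c 1 i j X ∪ Blk a c (-1) i j X)).card : ℝ) ≤
          ∑ j ∈ JB i L, ((Blk a c 1 i j X ∪ Blk a c (-1) i j X).card : ℝ) := by
        exact_mod_cast card_biUnion_le
      refine e3.trans ?_
      have e4 : ∀ j ∈ JB i L, ((Blk a c 1 i j X ∪ Blk a c (-1) i j X).card : ℝ) ≤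
          K * X * Real.exp (-(3/2 * SS i)) := by
        intro j hj
        unfold JB at hj
        rw [mem_filter] at hj
        have h2 : 2^(j + bt i) ≤ X :=
          (Nat.pow_le_pow_right (by norm_num) hj.2.2.1).trans hLX
        have f1 := card_Blk a c ha hc 1 (Or.inl rfl) i j X hj.2.1 h2
        have f2 := card_Blk a c ha hc (-1) (Or.inr rfl) i j X hj.2.1 h2
        have f3 : ((Blk a c 1 i j X ∪ Blk a c (-1) i j X).card : ℝ) ≤
            (Blk a c 1 i j X).card + (Blk a c (-1) i j X).card := by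
          exact_mod_cast card_union_le _ _
        rw [hK]
        linarith
      refine (sum_le_sum e4).trans ?_
      rw [sum_const, nsmul_eq_mul]
      have e5 : ((JB i L).card : ℝ) ≤ 2 * (bt (i+1) : ℝ) := by exact_mod_cast card_JB i L
      calc ((JB i L).card : ℝ) * (K * X * Real.exp (-(3/2 * SS i))) ≤
            (2 * (bt (i+1) : ℝ)) * (K * X * Real.exp (-(3/2 * SS i))) := by
            apply mul_le_mul_of_nonneg_right e5 (by positivity)
        _ = _ := by ring
    refine (sum_le_sum e2).trans ?_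
    rw [← mul_sum]
    have := hi0 i0 L le_rfl
    have := mul_le_mul_of_nonneg_left this hXr
    linarith
  have htot : ((US a c X).card : ℝ) ≤ ((Q.biUnion (fun q => RS q a c X)).card : ℝ) +
      ((((Icc i0 L).biUnion (fun i => (JB i L).biUnion
      (fun j => Blk a c 1 i j X ∪ Blk a c (-1) i j X))).card : ℝ) + (Hi b X).card) := by
    exact_mod_cast hcov.trans (c1.trans (Nat.add_le_add_left c2 _))
  have : 0 ≤ ε * X := by positivity
  linarith

end Pool.Agent.H24.AN
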