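import Mathlib
import Pool.Agent.H24.AN.Uniform

/-!
Assembly.
-/

namespace Pool.Agent.H24.AN

open Finset Filter Topology Classical Pool.Agent.H96.Sing
open Pool.Agent.H12 (SymmetricDesignExists design_lt)
open Pool.Agent.H70.SymDes (Exc exc_small SquareRatio)

lemma evenDiv_sub (A X : ℕ) :
    evenDivOrders X ⊆ ↑((range (X+1)).filter (Exc A) ∪
      ((Icc 1 A) ×ˢ (Icc 1 A)).biUnion (fun x => US x.1 x.2 X) : Finset ℕ) := by
  rintro v ⟨hvX, k, l, B, hk, hkv, hd, s', hs', hsp, hsv, hev⟩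
  rw [mem_coe, mem_union]
  by_cases hexc : Exc A v
  · left
    rw [mem_filter, mem_range]
    exact ⟨by omega, hexc⟩
  right
  have h1 : v % 4 = 3 ∧ SquareRatio A v k := by
    by_contra hcon
    exact hexc ⟨k, l, hk, hkv, toH12 hd, hcon⟩
  obtain ⟨hv4, s, t, hs, ht, hst, hA, hrat⟩ := h1
  obtain ⟨hlk, hlv⟩ := design_lt (by omega) (toH12 hd)
  have hvodd : Odd v := Nat.odd_iff.mpr (by omega)
  set q := orderOf s' with hq
  have hq2 : q ≠ 2 := by
    intro h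
    rw [h] at hsv
    omega
  have hno : ∀ p : ℕ, p.Prime → p ≠ q → ¬ IsSquare (p : ZMod q) → ¬ (p ∣ k - l ∧ ¬ p^2 ∣ k - l) :=
    fun p hp hpq hns => no_exact hd hlk hvodd s' hs' q hsp hq2 (orderOf_dvd hq.symm) hev p hp hns hpq
  have key : ∀ a c x : ℕ, 0 < a → k - l = a^2 * x → ∀ p : ℕ, p.Prime → p ≠ q →
      ¬ IsSquare (p : ZMod q) → ¬ p ∣ a → ¬ (p ∣ x ∧ ¬ p^2 ∣ x) := by
    rintro a c x ha hax p hp hpq hns hpa ⟨h1, h2⟩
    apply hno p hp hpq hns
    rw [hax]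
    refine ⟨Dvd.dvd.mul_left h1 _, fun h3 => h2 ?_⟩
    have hcop : Nat.Coprime (p^2) (a^2) :=
      Nat.Coprime.pow 2 2 ((Nat.Prime.coprime_iff_not_dvd hp).mpr hpa)
    exact hcop.dvd_of_dvd_mul_left h3
  rw [mem_biUnion]
  have hsA : s ≤ A := by nlinarith [sq_nonneg t]
  have htA : t ≤ A := by nlinarith [sq_nonneg s]
  rcases hrat with hr | hr
  · obtain ⟨x, hx1, hx2⟩ := ratio_two hs hst hk (by omega) hlk hlv hr
    refine ⟨(t, s), ?_, ?_⟩
    · rw [mem_product, mem_Icc, mem_Icc]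
      exact ⟨⟨ht, htA⟩, ⟨hs, hsA⟩⟩
    · unfold US
      rw [mem_filter, mem_range]
      exact ⟨by omega, by omega, q, hsp, hq2, hsv, x, hx2, key t s x ht hx1⟩
  · obtain ⟨x, hx1, hx2⟩ := ratio_one hs hst hk (by omega) hlk hlv hr
    refine ⟨(s, t), ?_, ?_⟩
    · rw [mem_product, mem_Icc, mem_Icc]
      exact ⟨⟨hs, hsA⟩, ⟨ht, htA⟩⟩
    · unfold US
      rw [mem_filter, mem_range]
      exact ⟨by omega, by omega, q, hsp, hq2, hsv, x, hx2, key s t x hs hx1⟩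

theorem evenDiv_small (ε : ℝ) (hε : 0 < ε) :
    ∀ᶠ X : ℕ in atTop, ((evenDivOrders X).ncard : ℝ) ≤ ε * X := by
  obtain ⟨A, hA⟩ := exc_small (ε/2) (by positivity)
  have h1 : ∀ᶠ X : ℕ in atTop, ∀ x ∈ (Icc 1 A) ×ˢ (Icc 1 A),
      ((US x.1 x.2 X).card : ℝ) ≤ (ε / (2 * (A^2 + 1))) * X := by
    rw [Filter.eventually_all_finset]
    intro x hx
    rw [mem_product, mem_Icc, mem_Icc] at hx
    exact US_small x.1 x.2 (by omega) (by omega) _ (by positivity)
  filter_upwards [hA, h1] with X hX hX1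
  have h2 : (evenDivOrders X).ncard ≤ ((range (X+1)).filter (Exc A) ∪
      ((Icc 1 A) ×ˢ (Icc 1 A)).biUnion (fun x => US x.1 x.2 X) : Finset ℕ).card := by
    rw [← Set.ncard_coe_finset]
    exact Set.ncard_le_ncard (evenDiv_sub A X) (Finset.finite_toSet _)
  have h3 := card_union_le ((range (X+1)).filter (Exc A))
    (((Icc 1 A) ×ˢ (Icc 1 A)).biUnion (fun x => US x.1 x.2 X))
  have h4 : ((((Icc 1 A) ×ˢ (Icc 1 A)).biUnion (fun x => US x.1 x.2 X)).card : ℝ) ≤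
      ∑ x ∈ (Icc 1 A) ×ˢ (Icc 1 A), ((US x.1 x.2 X).card : ℝ) := by
    exact_mod_cast card_biUnion_le
  have h5 : ((((Icc 1 A) ×ˢ (Icc 1 A)).biUnion (fun x => US x.1 x.2 X)).card : ℝ) ≤
      ε/2 * X := by
    refine h4.trans ((sum_le_sum hX1).trans ?_)
    rw [sum_const, card_product, Nat.card_Icc, nsmul_eq_mul]
    have e1 : (((A + 1 - 1) * (A + 1 - 1) : ℕ) : ℝ) = (A:ℝ)^2 := by
      rw [Nat.add_sub_cancel]; push_cast; ring
    rw [e1]
    have e2 : (A:ℝ)^2 * (ε / (2 * ((A:ℝ)^2 + 1)) * X) = ((A:ℝ)^2 / ((A:ℝ)^2 + 1)) * (ε/2 * X) := by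
      field_simp
    rw [e2]
    have e3 : (A:ℝ)^2 / ((A:ℝ)^2 + 1) ≤ 1 := by
      rw [div_le_one (by positivity)]; linarith
    have e4 : 0 ≤ ε/2 * X := by positivity
    nlinarith
  have h6 : ((evenDivOrders X).ncard : ℝ) ≤ ((range (X+1)).filter (Exc A)).card +
      (((Icc 1 A) ×ˢ (Icc 1 A)).biUnion (fun x => US x.1 x.2 X)).card := by
    exact_mod_cast h2.trans h3
  linarith

/-- a permutation of prime order `q` without fixed points: `q` divides the number of points -/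
lemma order_dvd {v : ℕ} (s : Equiv.Perm (Fin v)) (hq : (orderOf s).Prime)
    (hfree : ∀ x, s x ≠ x) : orderOf s ∣ v := by
  have : Fact (orderOf s).Prime := ⟨hq⟩
  obtain ⟨I, _, e, he⟩ := exists_param (q := orderOf s) s (pow_orderOf_eq_one s)
  have h3 := Fintype.card_congr e
  rw [Fintype.card_prod, ZMod.card, Fintype.card_subtype] at h3
  have h4 : (univ.filter (fun x => s x ≠ x)) = (univ : Finset (Fin v)) := by
    rw [filter_eq_self]
    intro x _; exact hfree x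
  rw [h4, card_univ, Fintype.card_fin] at h3
  exact Dvd.intro_left _ h3

lemma free_sub (X : ℕ) : freeOrders X ⊆ evenDivOrders X := by
  rintro v ⟨hvX, k, l, B, hk, hkv, hd, s, hs, hsp, hfree⟩
  refine ⟨hvX, k, l, B, hk, hkv, hd, s, hs, hsp, order_dvd s hsp hfree, ?_⟩
  have : (Finset.univ.filter (fun x => s x = x)) = ∅ := by
    rw [Finset.filter_eq_empty_iff]
    intro x _
    exact hfree x
  rw [this]; simp

lemma prime_order {v : ℕ} {s : Equiv.Perm (Fin v)} {q : ℕ} (hv : 0 < v)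
    (hq : q.Prime) (h2 : s ^ q = 1) (h3 : ∀ x, s x ≠ x) : (orderOf s).Prime := by
  have hs1 : s ≠ 1 := by
    rintro rfl
    exact h3 ⟨0, hv⟩ rfl
  have : Fact q.Prime := ⟨hq⟩
  rw [orderOf_eq_prime h2 hs1]
  exact hq

lemma ds_sub (X : ℕ) : differenceSetOrders X ⊆ freeOrders X := by
  rintro v ⟨hvX, G, hG, D, l, rfl, h1, h2, hD⟩
  have : Finite G := by
    apply Nat.finite_of_card_ne_zero
    omega
  obtain ⟨B, hB, hfree⟩ := design_of_diffSet G D l hD (by omega)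
  have hq : (Nat.card G).minFac.Prime := Nat.minFac_prime (by omega)
  obtain ⟨s, e1, e2, e3⟩ := hfree _ hq (Nat.minFac_dvd _)
  exact ⟨hvX, D.card, l, B, h1, h2, hB, s, e1, prime_order (by omega) hq e2 e3, e3⟩

lemma tr_sub (X : ℕ) : transitiveOrders X ⊆ freeOrders X := by
  rintro v ⟨hvX, k, l, B, h1, h2, hB, H, hH, ht, hc⟩
  have hv : 0 < v := by omega
  have hq : v.minFac.Prime := Nat.minFac_prime (by omega)
  obtain ⟨s, hs, e2, e3⟩ := fpf_of_group hv H ht hc _ hq (Nat.minFac_dvd _)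
  exact ⟨hvX, k, l, B, h1, h2, hB, s, hH s hs, prime_order hv hq e2 e3, e3⟩

theorem even_density (q : ℕ) (hq : q.Prime) (hq2 : q ≠ 2) :
    Tendsto (fun X : ℕ => ((evenOrders q X).ncard : ℝ) / X) atTop (𝓝 0) :=
  tendsto_of_small _ (fun X => by positivity) (fun ε hε => even_small q hq hq2 ε hε)

theorem evenDiv_density :
    Tendsto (fun X : ℕ => ((evenDivOrders X).ncard : ℝ) / X) atTop (𝓝 0) :=
  tendsto_of_small _ (fun X => by positivity) evenDiv_small

end Pool.Agent.H24.AN
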